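import Pool.Agent.helper72.UP.Spec

/-!
# LPB: the linear programming bound
-/

set_option autoImplicit false

namespace Pool.Agent.helper72.UP

open Finset

theorem LPB_one (f l c : ℝ) (hc : 0 < c) (h0 : 0 ≤ f) (h1 : f ≤ c) :
    f ≤ l * (f / c) + max (c - l) 0 := by
  obtain ⟨g, hg⟩ : ∃ g : ℝ, g = f / c := ⟨_, rfl⟩
  have hf : f = g * c := by
    rw [hg, div_mul_cancel₀ _ hc.ne']
  have hg0 : 0 ≤ g := by
    rw [hg]
    exact div_nonneg h0 hc.le
  have hg1 : g ≤ 1 := by
    rw [hg, div_le_one hc]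
    exact h1
  rw [← hg]
  have h2 : g * (c - l) ≤ g * max (c - l) 0 := mul_le_mul_of_nonneg_left (le_max_left _ _) hg0
  have h3 : g * max (c - l) 0 ≤ 1 * max (c - l) 0 :=
    mul_le_mul_of_nonneg_right hg1 (le_max_right _ _)
  have h4 : f = l * g + g * (c - l) := by
    rw [hf]
    ring
  linarith

theorem LPB : LPB_stmt := by
  intro m f l hl hf h4
  have h1 : ∑ r ∈ range (m + 1), f r ≤
      ∑ r ∈ range (m + 1), (l * (f r / (m.choose r : ℝ)) + max ((m.choose r : ℝ) - l) 0) := by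
    refine sum_le_sum ?_
    intro r hr
    have hc : (0 : ℝ) < (m.choose r : ℝ) := by
      have := Nat.choose_pos (Nat.lt_succ_iff.1 (mem_range.1 hr))
      exact_mod_cast this
    exact LPB_one _ _ _ hc (hf r hr).1 (hf r hr).2
  rw [sum_add_distrib, ← mul_sum] at h1
  have h2 := mul_le_mul_of_nonneg_left h4 hl
  linarith

end Pool.Agent.helper72.UP
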